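import Pool.Agent.TH93.QL.Defs
import Pool.Agent.TH93.CE.Pad
import Pool.Agent.H591R3.PHG.LangSig

/-!
# The padded hard language
-/

set_option autoImplicit false

namespace Pool.Agent.TH93.QL

open Pool.Agent.H620R2.Gauge Pool.Agent.NPC Pool.Agent.H591R3.PHG
open Pool.Agent.TH93.GL Pool.Agent.TH93.CE
open Pool.Agent.H490R3.LH

/-- the input without the padding, if it is short enough -/
def rr (g : ℕ → ℕ) (x : List Bool) : List Bool :=
  if (core x).length ≤ g x.length then core x else []

theorem rr_len (g : ℕ → ℕ) (x : List Bool) : (rr g x).length ≤ g x.length := by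
  unfold rr
  split_ifs with h
  · exact h
  · exact Nat.zero_le _

theorem poly_rr {g : ℕ → ℕ} (hg : NiceT (fun n => n) g) : Poly (rr g) :=
  Poly.ite (p := fun x => (core x).length ≤ g x.length)
    (Poly.decide_le (Poly.length poly_core) (poly_of_nice hg)) poly_core (NPC.Poly.const [])

/-- the padded language -/
def LangP (g : ℕ → ℕ) (k : ℕ) (A : Oracle) : Set (List Bool) := {x | rr g x ∈ lang k A}

theorem langP_sig {g : ℕ → ℕ} (hg : NiceT (fun n => n) g) (A : Oracle) (k : ℕ) :
    SigG g A (k + 1) (LangP g k A) := by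
  have hr := poly_rr hg
  refine ⟨fun z => LangSig.Ver (k + 1) (!(bot true (k + 1))) A
    (EQAx.TT (rr g) (fun x => (rr g x).length) (k + 1) z),
    (LangSig.isFP_Ver _ _ _).precomp (EQAx.poly_TT hr (Poly.length hr) (k + 1)), fun x => ?_⟩
  have h1 := EQAx.quant_TT (LangSig.Ver (k + 1) (!(bot true (k + 1))) A) (rr g)
    (fun x => (rr g x).length) (g x.length) (k + 1) 0 true x (rr_len g x)
  refine Iff.trans ?_ h1.symm
  show rr g x ∈ lang k A ↔ Quant (rr g x).length (LangSig.Ver (k + 1) (!(bot true (k + 1))) A)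
    (k + 1) true (rr g x)
  rw [LangSig.quant_iff A (k + 1) _ _ (k + 1) 0 true (rr g x) (rr g x) (rr g x) (by omega) rfl
    le_rfl (by rw [Bool.not_not])]
  rfl

end Pool.Agent.TH93.QL
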