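import Pool.Agent.TH93.QL.Ev
import Pool.Agent.TH93.QL.Lang
import Pool.Agent.TH93.CE.Cover

/-!
# The padded language is hard relative to a random oracle
-/

set_option autoImplicit false

namespace Pool.Agent.TH93.QL

open Finset Filter MeasureTheory
open H568R2 Pool.Agent.H676 Pool.Agent.H620R2.Gauge Pool.Agent.NPC Pool.Agent.H591R3.PHG
open Pool.Agent.TH93.GL Pool.Agent.TH93.CE
open Pool.Agent.H628R3.RO (randomOracle)

/-- the oracles for which the parameters are good for the padded language -/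
def EasyL (g : ℕ → ℕ) (θ : Par) : Set Oracle :=
  {A | ∃ (V : List Bool → List Bool) (h : ℕ → List Bool),
    (∀ x, θ.M.out A x = some (V x)) ∧ (∀ n, (h n).length ≤ θ.p'.eval n) ∧
    ∀ x, x ∈ LangP g θ.k A ↔ Quant (θ.p.eval (pairBits x (h x.length)).length) V θ.k true
      (pairBits x (h x.length))}

theorem mem_easyL {g : ℕ → ℕ} {A : Oracle} {k : ℕ} (h : IsSigPoly A k (LangP g k A)) :
    ∃ θ, A ∈ EasyL g θ := by
  obtain ⟨L', h, p', ⟨V, p, ⟨M, hM⟩, hL'⟩, hh, hx⟩ := h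
  exact ⟨⟨M, p, k, p'⟩, V, h, hM, hh, fun x => (hx x).trans (hL' _)⟩

/-- the bound for the questions of the verifier -/
noncomputable def Sq (θ : Par) (m : ℕ) : ℕ :=
  2 * m + 1 + θ.p'.eval m + θ.k * (2 * θ.p.eval (2 * m + 1 + θ.p'.eval m) + 1)

theorem evL_of_easy (θ : Par) : ∃ qn : Polynomial ℕ, ∀ (g : ℕ → ℕ), ∀ A ∈ EasyL g θ,
    ∀ (as : List ℕ) (n N K m : ℕ), as.length = θ.k + 1 →
    (∀ j : Fin K, (inp as n K j).length + 3 ≤ m ∧ (inp as n K j).length ≤ g m) →
    ∀ hN : ∀ g : Idx (Fin K) (8 * n :: pw as),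
      idx (addr (inp as n K) as g.1 ++ List.replicate g.2.val true) < N,
    2 ^ (qn.eval (Sq θ m) + 1) ≤ N →
    EvL θ as n N (fun j => pad m (inp as n K j)) m (θ.p'.eval m) hN (pre N A) := by
  obtain ⟨qb, hqb⟩ := Alg.out_local θ.M
  refine ⟨qb, ?_⟩
  rintro g A ⟨V, h, hM, hh, hx⟩ as n N K m hk hlen hpos hN
  have hV : ∀ y : List Bool, y.length ≤ Sq θ m →
      (V y = [true] ↔ leaf θ.M N y (pre N A) = true) := by
    intro y hy
    obtain ⟨Q, _, hQl, hQA⟩ := hqb A y
    have h1 : θ.M.out (orc N (pre N A)) y = θ.M.out A y := by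
      apply hQA
      intro q hq
      apply orc_pre
      have h2 := idx_lt q
      have h3 : q.length ≤ qb.eval (Sq θ m) := (hQl q hq).trans (eval_mono _ hy)
      have h4 : 2 ^ (q.length + 1) ≤ 2 ^ (qb.eval (Sq θ m) + 1) :=
        Nat.pow_le_pow_right (by norm_num) (by omega)
      omega
    unfold leaf
    rw [h1, hM y, decide_eq_true_eq, Option.some.injEq]
  refine ⟨(h m).length, hh m, h m, rfl, ?_⟩
  intro j
  obtain ⟨hl3, hlg⟩ := hlen j
  have hlm : (pad m (inp as n K j)).length = m := pad_len hl3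
  have h1 := hx (pad m (inp as n K j))
  rw [hlm, length_pairBits, hlm] at h1
  have h2 : pad m (inp as n K j) ∈ LangP g θ.k A ↔
      Tr (8 * n :: pw as) (fun g => pre N A (pos as n K N hpos g)) j = false := by
    have e0 : rr g (pad m (inp as n K j)) = inp as n K j := by
      unfold rr
      rw [core_pad, hlm, if_pos hlg]
    show rr g (pad m (inp as n K j)) ∈ lang θ.k A ↔ _
    rw [e0]
    refine (mem_lang_iff A θ.k as hk (8 * n)
      (fun j : Fin K => bitsOf (n + 11) j.val) j).trans ?_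
    have e : leaves (fun j : Fin K => enc as (8 * n) (bitsOf (n + 11) j.val)) as
        (8 * n) A = fun g => pre N A (pos as n K N hpos g) := by
      funext g
      show A (addr (inp as n K) as g.1 ++ List.replicate g.2.val true) =
        A (str (idx (addr (inp as n K) as g.1 ++ List.replicate g.2.val true)))
      rw [str_idx]
    rw [e]
  have hlt : 2 * m + 1 + (h m).length ≤ 2 * m + 1 + θ.p'.eval m := by
    have := hh m
    omega
  have h3 := quant_iff (m := θ.p.eval (2 * m + 1 + (h m).length))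
    (Sq θ m) hV θ.k true
    (pairBits (pad m (inp as n K j)) (h m)) (by
      rw [length_pairBits, hlm]
      unfold Sq
      have h5 : θ.p.eval (2 * m + 1 + (h m).length) ≤
        θ.p.eval (2 * m + 1 + θ.p'.eval m) := eval_mono _ hlt
      have h6 : θ.k * (2 * θ.p.eval (2 * m + 1 + (h m).length) + 1) ≤
        θ.k * (2 * θ.p.eval (2 * m + 1 + θ.p'.eval m) + 1) := Nat.mul_le_mul_left _ (by omega)
      omega)
  have h4 : QF (θ.p.eval (2 * m + 1 + (h m).length)) (leaf θ.M N) θ.k true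
      (pairBits (pad m (inp as n K j)) (h m)) (pre N A) = true ↔
      Tr (8 * n :: pw as) (fun g => pre N A (pos as n K N hpos g)) j = false := by
    rw [← h2, h1, ← h3]
  intro heq
  rw [heq] at h4
  cases hb : Tr (8 * n :: pw as) (fun g => pre N A (pos as n K N hpos g)) j with
  | true => rw [hb] at h4; exact absurd (h4.1 rfl) (by simp)
  | false => rw [hb] at h4; exact absurd (h4.2 rfl) (by simp)

/-- the bound for the questions of the verifier, as a polynomial -/
noncomputable def SqP (θ : Par) : Polynomial ℕ :=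
  2 * Polynomial.X + 1 + θ.p' + Polynomial.C θ.k *
    (2 * θ.p.comp (2 * Polynomial.X + 1 + θ.p') + 1)

theorem eval_SqP (θ : Par) (m : ℕ) : (SqP θ).eval m = Sq θ m := by
  simp [SqP, Sq, Polynomial.eval_comp]

theorem null_easyL (g : ℕ → ℕ) (hg : ∀ c : ℕ, ∃ᶠ m : ℕ in atTop, c * (Nat.log 2 m + 1) ≤ g m)
    (θ : Par) : Null (fun _ => 0) (EasyL g θ) := by
  classical
  intro δ hδ
  obtain ⟨qn, hQ⟩ := evL_of_easy θ
  obtain ⟨P, hPdef⟩ : ∃ P : Polynomial ℕ, P = 2 * θ.p' + SqP θ + 4 + θ.M.p.comp (SqP θ) :=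
    ⟨_, rfl⟩
  have hPe : ∀ m, P.eval m = 2 * θ.p'.eval m + Sq θ m + 4 + θ.M.p.eval (Sq θ m) := by
    intro m
    rw [hPdef]
    simp only [Polynomial.eval_add, Polynomial.eval_mul, Polynomial.eval_comp, eval_SqP,
      Polynomial.eval_ofNat]
  obtain ⟨m, n, u, hn40, hP, hu8, hm3, hgm, hb⟩ := asymP θ.k P g hg δ hδ
  have hPm := hPe m
  have hn5 : 5 ≤ n := by omega
  obtain ⟨as, hk, has, hX⟩ := exists_sizes hn5 θ.k _ (inv_start hn5)
  have hlaw := hX (Fin (2 ^ (u + 11))) (2 ^ (3 * u + 11)) (2 ^ (u + 9)) (by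
      calc 16 * 2 ^ (3 * u + 11) = 2 ^ (3 * u + 15) := by
            rw [show 3 * u + 15 = 3 * u + 11 + 4 from rfl, pow_add _ (3 * u + 11) 4]; ring
        _ ≤ 2 ^ (4 * n) := Nat.pow_le_pow_right (by norm_num) (by omega)) (by
      rw [Fintype.card_fin]
      have : 2 ^ (u + 11) = 4 * 2 ^ (u + 9) := by
        rw [show u + 11 = u + 9 + 2 from rfl, pow_add _ (u + 9) 2]; ring
      omega)
  rw [Fintype.card_fin] at hlaw
  obtain ⟨N, hNdef⟩ : ∃ N : ℕ, N = 2 ^ (qn.eval (Sq θ m) + 1) +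
    2 ^ ((Lx θ.k).eval n + 64 * (θ.k + 1) * n + 8 * n + 1) := ⟨_, rfl⟩
  have hN1 : 2 ^ (qn.eval (Sq θ m) + 1) ≤ N := hNdef ▸ Nat.le_add_right _ _
  have hN2 : 2 ^ ((Lx θ.k).eval n + 64 * (θ.k + 1) * n + 8 * n + 1) ≤ N :=
    hNdef ▸ Nat.le_add_left _ _
  have hpos : ∀ g : Idx (Fin (2 ^ (u + 11))) (8 * n :: pw as),
      idx (addr (inp as n (2 ^ (u + 11))) as g.1 ++ List.replicate g.2.val true) < N :=
    fun g => pos_lt hk has hN2 g
  have hlen : ∀ j : Fin (2 ^ (u + 11)), (inp as n (2 ^ (u + 11)) j).length + 3 ≤ m ∧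
      (inp as n (2 ^ (u + 11)) j).length ≤ g m := by
    intro j
    have h1 := inp_len as n (2 ^ (u + 11)) j
    have h2 : 2 * as.sum + as.length + 2 * (8 * n) + 1 + (n + 11) ≤
        (Lx θ.k).eval n := inp_len_le hk has
    omega
  have hev := evL_bound θ (P := P.eval m) (K := 2 ^ (u + 11)) (μ := m) (p₁ := θ.p'.eval m)
    (S := Sq θ m) rfl hn5 hu8 hk
    (fun j => pad m (inp as n (2 ^ (u + 11)) j)) (fun j => pad_len (hlen j).1) le_rfl hlaw hP
    (by omega) hpos
  set E : Set (Fin N → Bool) := {α | EvL θ as n N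
    (fun j => pad m (inp as n (2 ^ (u + 11)) j)) m (θ.p'.eval m) hpos α} with hE
  refine ⟨(fun α : Fin N → Bool => List.ofFn α) '' E, ?_, ?_⟩
  · intro A hA
    refine ⟨List.ofFn (pre N A), ⟨pre N A,
      hQ g A hA as n N (2 ^ (u + 11)) m hk hlen hpos hN1, rfl⟩, ?_⟩
    intro i hi
    rw [List.getElem_ofFn]
    rfl
  · have hinj : Set.InjOn (fun α : Fin N → Bool => List.ofFn α) E :=
      fun a _ b _ h => List.ofFn_injective h
    rw [tsum_image (fun σ : List Bool => ENNReal.ofReal (2 ^ ((0 : ℝ) - σ.length))) hinj]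
    simp only [List.length_ofFn]
    rw [tsum_fintype, Finset.sum_const, nsmul_eq_mul, Finset.card_univ]
    rw [← ENNReal.ofReal_natCast, ← ENNReal.ofReal_mul (by positivity)]
    apply ENNReal.ofReal_le_ofReal
    have h1 : Fintype.card E =
        (univ.filter (fun α : Fin N → Bool => EvL θ as n N
          (fun j => pad m (inp as n (2 ^ (u + 11)) j)) m (θ.p'.eval m) hpos α)).card := by
      rw [← Fintype.card_subtype]
      rfl
    have h2 := card_of_Ex (fun α : Fin N → Bool => EvL θ as n N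
          (fun j => pad m (inp as n (2 ^ (u + 11)) j)) m (θ.p'.eval m) hpos α)
    have h3 : (2 : ℝ) ^ ((0 : ℝ) - N) = 2 ^ (-(N : ℝ)) := by rw [zero_sub]
    rw [h1, h3, h2]
    exact hev.trans hb

theorem measure_easyL (g : ℕ → ℕ)
    (hg : ∀ c : ℕ, ∃ᶠ m : ℕ in atTop, c * (Nat.log 2 m + 1) ≤ g m) (θ : Par) :
    randomOracle (EasyL g θ) = 0 := by
  refine Pool.Agent.W900.CH.measure_far (null_easyL g hg θ) (EasyL g θ) (fun _ => {∅})
    (fun N => by simp) fun O hO => ⟨O, hO, fun N => ?_⟩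
  rw [Finset.mem_singleton]
  unfold Pool.Agent.W900.CH.diffN
  simp

/-- relative to almost every oracle, the padded language is hard -/
theorem ae_hard : ∀ᵐ A ∂randomOracle, ∀ g : ℕ → ℕ, NiceT (fun n => n) g →
    (¬ ∃ c : ℕ, ∀ n, g n ≤ c * (Nat.log 2 n + 1)) → ∀ k, ¬ IsSigPoly A k (LangP g k A) := by
  have h1 : ∀ᵐ A ∂randomOracle, ∀ g ∈ {g : ℕ → ℕ | NiceT (fun n => n) g}, ∀ θ : Par,
      (¬ ∃ c : ℕ, ∀ n, g n ≤ c * (Nat.log 2 n + 1)) → A ∉ EasyL g θ := by
    refine (ae_ball_iff (countable_niceT (fun n => n))).2 fun g _ => ae_all_iff.2 fun θ => ?_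
    by_cases hg : ∃ c : ℕ, ∀ n, g n ≤ c * (Nat.log 2 n + 1)
    · exact Eventually.of_forall fun A h => absurd hg h
    · have h2 := measure_easyL g (fun c => frequently_of hg c) θ
      rw [ae_iff]
      simpa [hg] using h2
  filter_upwards [h1] with A hA g hg hs k hk
  obtain ⟨θ, hθ⟩ := mem_easyL hk
  exact hA g hg θ hs hθ

end Pool.Agent.TH93.QL
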