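import Pool.Agent.H591R3.PHG.Defs

/-!
# Alternating quantifiers over short strings, relative to an oracle

(Continues `Pool.Agent.H620R2.Gauge.Defs` and `Pool.Agent.H591R3.PHG.Defs`.)
-/

set_option autoImplicit false

namespace Pool.Agent.TH93.QL

open Pool.Agent.NPC Pool.Agent.H620R2.Gauge

/-- `L` is defined by `k` alternating quantifiers, the first one existential, over the strings of
length at most `g (|x|)`, in front of a predicate which is computed in polynomial time relative to
`A`. -/
def SigG (g : ℕ → ℕ) (A : Oracle) (k : ℕ) (L : Set (List Bool)) : Prop :=
  ∃ V : List Bool → List Bool, IsFP A V ∧ ∀ x, x ∈ L ↔ Quant (g x.length) V k true x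

/-- `k` alternating quantifiers over the strings of length at most `m`, the first one existential if
the bit is `true` and universal if it is `false`, followed by one more quantifier (again
alternating) over the strings of length at most `s`, in front of the property `V y = [true]`. -/
def QuantS (m s : ℕ) (V : List Bool → List Bool) : ℕ → Bool → List Bool → Prop
  | 0, true, y => ∃ w : List Bool, w.length ≤ s ∧ V (pairBits w y) = [true]
  | 0, false, y => ∀ w : List Bool, w.length ≤ s → V (pairBits w y) = [true]
  | k + 1, true, y => ∃ w : List Bool, w.length ≤ m ∧ QuantS m s V k false (pairBits w y)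
  | k + 1, false, y => ∀ w : List Bool, w.length ≤ m → QuantS m s V k true (pairBits w y)

/-- `L` is defined by `k` alternating quantifiers over strings of polynomial length, the first one
existential, followed by one more quantifier over the strings of length at most `g (|x|)`, in front
of a predicate which is computed in polynomial time relative to `A`. -/
def SigMix (g : ℕ → ℕ) (A : Oracle) (k : ℕ) (L : Set (List Bool)) : Prop :=
  ∃ (V : List Bool → List Bool) (p : Polynomial ℕ), IsFP A V ∧
    ∀ x, x ∈ L ↔ QuantS (p.eval x.length) (g x.length) V k true x

end Pool.Agent.TH93.QL
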