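import Pool.Agent.H591R3.PHG.Event

/-!
# The event that some advice is right for padded inputs

(Adapted from `Pool.Agent.H591R3.PHG.Event`: the inputs and the bounds are arbitrary.)
-/

set_option autoImplicit false

namespace Pool.Agent.TH93.QL

open Finset H568R2 Pool.Agent.H676 Pool.Agent.H620R2.Gauge Pool.Agent.NPC Pool.Agent.H591R3.PHG

open Classical in
/-- the bound for one advice string -/
theorem one_advice (θ : Par) {n N u K ℓ m S : ℕ} (hK : K = 2 ^ (u + 11)) (hn : 5 ≤ n)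
    (hu : 8 * u ≤ n) {as : List ℕ} (hk : as.length = θ.k + 1)
    (Y : Fin K → List Bool) (hY : ∀ j, (Y j).length ≤ ℓ) (hS : ℓ + θ.k * (2 * m + 1) ≤ S)
    (hlaw : Ex (nxt (1 / 2) (1 / 2 ^ (4 * n)) 0 (8 * n) (8 * n) law0)
      (Wt (X := Fin K) (1 / 2 ^ (4 * n)) (1 / 2 ^ (2 * n)) (8 * n * 2 ^ (4 * n))
        (1 / 256) (2 ^ (3 * u + 11)) (2 ^ (u + 9)) (pw as)) ≤ (9 / 10) ^ K)
    (hP : θ.M.p.eval S ≤ 2 ^ (2 * u))
    (hN : ∀ g : Idx (Fin K) (8 * n :: pw as),
      idx (addr (inp as n K) as g.1 ++ List.replicate g.2.val true) < N) :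
    Ex unif (fun a : Fin N → Bool => if ∀ j : Fin K,
      QF m (leaf θ.M N) θ.k true (Y j) a ≠
        Tr (8 * n :: pw as) (fun g => a (pos as n K N hN g)) j then (1 : ℝ) else 0) ≤
      θ.k * (2 ^ (S + 2) * (1 / 2) ^ (2 ^ (2 * u) + 1)) + 3 * (1 / 2) ^ (2 ^ u) := by
  have hKn : K ≤ 2 ^ (n + 11) := hK ▸ Nat.pow_le_pow_right (by norm_num) (by omega)
  have hinj := pos_inj as n K N hN hKn
  rw [Ex_overwrite (pos as n K N hN) hinj]
  have hkey : ∀ a : Fin N → Bool, Ex (ber (1 / 2)) (fun z : Idx (Fin K) (8 * n :: pw as) → Bool =>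
      (fun a : Fin N → Bool => if ∀ j : Fin K,
        QF m (leaf θ.M N) θ.k true (Y j) a ≠
          Tr (8 * n :: pw as) (fun g => a (pos as n K N hN g)) j then (1 : ℝ) else 0)
        (fun i => if h : ∃ j, pos as n K N hN j = i then z h.choose else a i)) ≤
      θ.k * (2 ^ (S + 2) * (1 / 2) ^ (2 ^ (2 * u) + 1)) + 3 * (1 / 2) ^ (2 ^ u) := by
    intro a
    set F : List Bool → (Idx (Fin K) (8 * n :: pw as) → Bool) → Bool := fun y z =>
      leaf θ.M N y (fun i => if h : ∃ j, pos as n K N hN j = i then z h.choose else a i) with hF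
    have hFd : ∀ y : List Bool, y.length ≤ ℓ + θ.k * (2 * m + 1) →
        DTr (2 ^ (2 * u)) (F y) := by
      intro y hy
      have h1 : DTr (θ.M.p.eval y.length) (leaf θ.M N y) := dtr_out θ.M N y
      have h2 : θ.M.p.eval y.length ≤ 2 ^ (2 * u) := (eval_mono _ (hy.trans hS)).trans hP
      exact DTr_overwrite (pos as n K N hN) a (h1.mono h2)
    have hcard : 2 ^ (2 * u) * Fintype.card (Fin K) ≤ 2 ^ (3 * u + 11) := by
      rw [Fintype.card_fin, hK, ← pow_add]
      exact Nat.pow_le_pow_right (by norm_num) (by omega)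
    have hlen2 : (pw as).length = θ.k + 1 := by
      rw [pw, List.length_map]; exact hk
    have h1 := main_leaf (X := Fin K) (n := n) (u := u) (D := 2 ^ (3 * u + 11)) (g := 2 ^ (u + 9))
      hn hu hcard θ.k (pw as) hlen2 m ℓ F hFd Y hY true
    have h2 := final_numbers hn hu
    have h3 : (2 : ℝ) ^ (ℓ + θ.k * (2 * m + 1) + 2) ≤ 2 ^ (S + 2) :=
      pow_le_pow_right₀ (by norm_num) (by omega)
    have h4 : (θ.k : ℝ) * (2 ^ (ℓ + θ.k * (2 * m + 1) + 2) *
        (1 / 2) ^ (2 ^ (2 * u) + 1)) ≤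
        θ.k * (2 ^ (S + 2) * (1 / 2) ^ (2 ^ (2 * u) + 1)) :=
      mul_le_mul_of_nonneg_left (mul_le_mul_of_nonneg_right h3 (by positivity)) (by positivity)
    have h5 : ((9 : ℝ) / 10) ^ K = (9 / 10) ^ (2 ^ (u + 11)) := by rw [hK]
    refine le_trans (le_of_eq ?_) (h1.trans ?_)
    · unfold Ms
      congr 1
      funext z
      have e1 : (fun g => (fun i => if h : ∃ j, pos as n K N hN j = i then z h.choose else a i)
          (pos as n K N hN g)) = val (fun _ => none) z := by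
        funext g
        have hex : ∃ j, pos as n K N hN j = pos as n K N hN g := ⟨g, rfl⟩
        show (if h : ∃ j, pos as n K N hN j = pos as n K N hN g then z h.choose else
          a (pos as n K N hN g)) = z g
        rw [dif_pos hex]
        exact congrArg z (hinj hex.choose_spec)
      have e2 : (∀ j : Fin K, QF m (leaf θ.M N) θ.k true (Y j)
          (fun i => if h : ∃ j, pos as n K N hN j = i then z h.choose else a i) ≠
          Tr (8 * n :: pw as) (fun g => (fun i =>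
            if h : ∃ j, pos as n K N hN j = i then z h.choose else a i) (pos as n K N hN g)) j) ↔
          ∀ j : Fin K, QF m F θ.k true (Y j) z ≠
            Tr (8 * n :: pw as) (val (fun _ => none) z) j := by
        refine forall_congr' fun j => ?_
        rw [e1, ← QF_comp m (leaf θ.M N) (fun z i =>
          if h : ∃ j, pos as n K N hN j = i then z h.choose else a i)]
      by_cases hz : ∀ j : Fin K, QF m F θ.k true (Y j) z ≠
            Tr (8 * n :: pw as) (val (fun _ => none) z) j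
      · rw [if_pos hz]
        exact if_pos (e2.2 hz)
      · rw [if_neg hz]
        exact if_neg fun h => hz (e2.1 h)
    · linarith
  refine (Ex_mono unif_nonneg hkey).trans (le_of_eq ?_)
  exact Ex_const unif_sum _


/-- The event: some advice of length at most `p₁` gives the right answers on all the inputs `X j`
of length `μ`. -/
def EvL (θ : Par) (as : List ℕ) (n N : ℕ) {K : ℕ} (X : Fin K → List Bool) (μ p₁ : ℕ)
    (hN : ∀ g : Idx (Fin K) (8 * n :: pw as),
      idx (addr (inp as n K) as g.1 ++ List.replicate g.2.val true) < N) (a : Fin N → Bool) : Prop :=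
  ∃ c ≤ p₁, ∃ h : List Bool, h.length = c ∧ ∀ j : Fin K,
    QF (θ.p.eval (2 * μ + 1 + c)) (leaf θ.M N) θ.k true (pairBits (X j) h) a ≠
        Tr (8 * n :: pw as) (fun g => a (pos as n K N hN g)) j

open Classical in
theorem evL_bound (θ : Par) {n N u K μ p₁ S P : ℕ} (hK : K = 2 ^ (u + 11)) (hn : 5 ≤ n)
    (hu : 8 * u ≤ n) {as : List ℕ} (hk : as.length = θ.k + 1)
    (X : Fin K → List Bool) (hX : ∀ j, (X j).length = μ)
    (hS : 2 * μ + 1 + p₁ + θ.k * (2 * θ.p.eval (2 * μ + 1 + p₁) + 1) ≤ S)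
    (hlaw : Ex (nxt (1 / 2) (1 / 2 ^ (4 * n)) 0 (8 * n) (8 * n) law0)
      (Wt (X := Fin K) (1 / 2 ^ (4 * n)) (1 / 2 ^ (2 * n)) (8 * n * 2 ^ (4 * n))
        (1 / 256) (2 ^ (3 * u + 11)) (2 ^ (u + 9)) (pw as)) ≤ (9 / 10) ^ K)
    (hPu : P ≤ 2 ^ (2 * u)) (hP : 2 * p₁ + S + 4 + θ.M.p.eval S ≤ P)
    (hN : ∀ g : Idx (Fin K) (8 * n :: pw as),
      idx (addr (inp as n K) as g.1 ++ List.replicate g.2.val true) < N) :
    Ex unif (fun a : Fin N → Bool => if EvL θ as n N X μ p₁ hN a then (1 : ℝ) else 0) ≤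
      bnd θ.k (Polynomial.C P) n u := by
  have hPP : (Polynomial.C P).eval n = P := Polynomial.eval_C
  set B : ℝ := θ.k * (2 ^ (S + 2) * (1 / 2) ^ (2 ^ (2 * u) + 1)) +
    3 * (1 / 2) ^ (2 ^ u) with hB
  have hB0 : 0 ≤ B := by positivity
  have h0 : ∀ a : Fin N → Bool, (if EvL θ as n N X μ p₁ hN a then (1 : ℝ) else 0) ≤
      ∑ c ∈ Finset.range (p₁ + 1), ∑ h ∈ strsOf c, (if ∀ j : Fin K,
          QF (θ.p.eval (2 * μ + 1 + c)) (leaf θ.M N) θ.k true (pairBits (X j) h) a ≠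
          Tr (8 * n :: pw as) (fun g => a (pos as n K N hN g)) j then (1 : ℝ) else 0) := by
    intro a
    by_cases hE : EvL θ as n N X μ p₁ hN a
    · rw [if_pos hE]
      obtain ⟨c, hc, h, hh, hj⟩ := hE
      refine le_trans ?_ (Finset.single_le_sum (f := fun c => ∑ h ∈ strsOf c, (if ∀ j : Fin K,
          QF (θ.p.eval (2 * μ + 1 + c)) (leaf θ.M N) θ.k true (pairBits (X j) h) a ≠
          Tr (8 * n :: pw as) (fun g => a (pos as n K N hN g)) j then (1 : ℝ) else 0))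
        (fun c _ => Finset.sum_nonneg fun h _ => by positivity)
        (Finset.mem_range.2 (Nat.lt_succ_of_le hc)))
      beta_reduce
      refine le_trans ?_ (Finset.single_le_sum (f := fun h : List Bool => (if ∀ j : Fin K,
          QF (θ.p.eval (2 * μ + 1 + c)) (leaf θ.M N) θ.k true (pairBits (X j) h) a ≠
          Tr (8 * n :: pw as) (fun g => a (pos as n K N hN g)) j then (1 : ℝ) else 0))
        (fun h _ => by positivity) (by rw [← hh]; exact mem_strsOf h))
      beta_reduce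
      rw [if_pos hj]
    · rw [if_neg hE]
      exact Finset.sum_nonneg fun c _ => Finset.sum_nonneg fun h _ => by positivity
  refine (Ex_mono unif_nonneg h0).trans ?_
  rw [Ex_sum]
  have h2 : ∀ c ∈ Finset.range (p₁ + 1), Ex unif (fun a : Fin N → Bool => ∑ h ∈ strsOf c,
      (if ∀ j : Fin K,
          QF (θ.p.eval (2 * μ + 1 + c)) (leaf θ.M N) θ.k true (pairBits (X j) h) a ≠
          Tr (8 * n :: pw as) (fun g => a (pos as n K N hN g)) j then (1 : ℝ) else 0)) ≤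
      2 ^ p₁ * B := by
    intro c hc
    rw [Finset.mem_range, Nat.lt_succ_iff] at hc
    rw [Ex_sum]
    have h3 : ∀ h ∈ strsOf c, Ex unif (fun a : Fin N → Bool => if ∀ j : Fin K,
          QF (θ.p.eval (2 * μ + 1 + c)) (leaf θ.M N) θ.k true (pairBits (X j) h) a ≠
          Tr (8 * n :: pw as) (fun g => a (pos as n K N hN g)) j then (1 : ℝ) else 0) ≤ B := by
      intro h hh
      obtain ⟨i, _, rfl⟩ := Finset.mem_image.1 hh
      refine one_advice θ hK hn hu hk (fun j => pairBits (X j) (bitsOf c i))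
        (ℓ := 2 * μ + 1 + c) (m := θ.p.eval (2 * μ + 1 + c)) (S := S) ?_ ?_ hlaw (by omega) hN
      · intro j
        rw [length_pairBits, hX j, length_bitsOf]
      · have h4 : θ.p.eval (2 * μ + 1 + c) ≤ θ.p.eval (2 * μ + 1 + p₁) := eval_mono _ (by omega)
        have h5 : θ.k * (2 * θ.p.eval (2 * μ + 1 + c) + 1) ≤
          θ.k * (2 * θ.p.eval (2 * μ + 1 + p₁) + 1) := Nat.mul_le_mul_left _ (by omega)
        omega
    refine (Finset.sum_le_sum h3).trans ?_
    rw [Finset.sum_const, nsmul_eq_mul]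
    apply mul_le_mul_of_nonneg_right _ hB0
    have h5 : (strsOf c).card ≤ 2 ^ p₁ :=
      (card_strsOf c).trans (Nat.pow_le_pow_right (by norm_num) hc)
    exact_mod_cast h5
  refine (Finset.sum_le_sum h2).trans ?_
  rw [Finset.sum_const, Finset.card_range, nsmul_eq_mul]
  have h1 : ((p₁ + 1 : ℕ) : ℝ) ≤ 2 ^ p₁ := by
    have : p₁ + 1 ≤ 2 ^ p₁ := Nat.lt_two_pow_self
    exact_mod_cast this
  have h2 : ((p₁ + 1 : ℕ) : ℝ) * (2 ^ p₁ * B) ≤ 2 ^ p₁ * (2 ^ p₁ * B) :=
    mul_le_mul_of_nonneg_right h1 (by positivity)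
  refine h2.trans ?_
  have h3 : (2 : ℝ) ^ p₁ * 2 ^ p₁ * 2 ^ (S + 2) ≤ 2 ^ P := by
    rw [← pow_add, ← pow_add]
    apply pow_le_pow_right₀ (by norm_num)
    omega
  have h4 : (2 : ℝ) ^ p₁ * 2 ^ p₁ * 3 ≤ 2 ^ P := by
    have : (2 : ℝ) ^ p₁ * 2 ^ p₁ * 3 ≤ 2 ^ p₁ * 2 ^ p₁ * 2 ^ 2 := by
      apply mul_le_mul_of_nonneg_left (by norm_num) (by positivity)
    refine this.trans ?_
    rw [← pow_add, ← pow_add]
    apply pow_le_pow_right₀ (by norm_num)
    omega
  have h5 : (0 : ℝ) ≤ θ.k * (1 / 2) ^ (2 ^ (2 * u) + 1) := by positivity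
  have h6 : (0 : ℝ) ≤ (1 / 2) ^ (2 ^ u) := by positivity
  have h7 := mul_le_mul_of_nonneg_right h3 h5
  have h8 := mul_le_mul_of_nonneg_right h4 h6
  have hq1 : ((1 : ℝ) / (24 * 2 ^ (2 * u))) ^ θ.k ≤ 1 := by
    apply pow_le_one₀ (by positivity)
    rw [div_le_one (by positivity)]
    have : (1 : ℝ) ≤ 2 ^ (2 * u) := one_le_pow₀ (by norm_num)
    linarith
  have h9 : (0 : ℝ) ≤ 2 ^ P * (2 ^ u * (2 ^ (3 * u) + 1) *
      (1 - (1 / (24 * 2 ^ (2 * u))) ^ θ.k) ^ (2 ^ n / (2 ^ (3 * u) + 1))) := by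
    have : (0 : ℝ) ≤ (1 - (1 / (24 * 2 ^ (2 * u))) ^ θ.k) ^ (2 ^ n / (2 ^ (3 * u) + 1)) :=
      pow_nonneg (by linarith) _
    positivity
  have e : (2 : ℝ) ^ p₁ * (2 ^ p₁ * B) = 2 ^ p₁ * 2 ^ p₁ * 2 ^ (S + 2) *
      (θ.k * (1 / 2) ^ (2 ^ (2 * u) + 1)) + 2 ^ p₁ * 2 ^ p₁ * 3 * (1 / 2) ^ (2 ^ u) := by
    rw [hB]; ring
  rw [e]
  unfold bnd
  rw [hPP]
  linarith

end Pool.Agent.TH93.QL
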