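import Pool.Agent.TH93.QL.Mix
import Pool.Agent.TH93.QL.Cover

/-!
# The law
-/

set_option autoImplicit false

namespace Pool.Agent.TH93.QL

open MeasureTheory Pool.Agent.H620R2.Gauge Pool.Agent.NPC Pool.Agent.H591R3.PHG
open Pool.Agent.TH93.GL
open Pool.Agent.H628R3.RO (randomOracle)

theorem law : ∀ᵐ A ∂randomOracle, ∀ g : ℕ → ℕ, NiceT (fun n => n) g → List.TFAE [
    ∃ c : ℕ, ∀ n, g n ≤ c * (Nat.log 2 n + 1),
    ∀ (k : ℕ) (L : Set (List Bool)), SigG g A k L → IsP A L,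
    ∃ k : ℕ, ∀ L : Set (List Bool), SigG g A (k + 1) L → IsSigPoly A k L,
    ∀ (k : ℕ) (L : Set (List Bool)), SigMix g A k L → IsSig A k L,
    ∃ k : ℕ, ∀ L : Set (List Bool), SigMix g A k L → IsSigPoly A k L] := by
  filter_upwards [ae_hard] with A hA g hg
  tfae_have 1 → 2 := fun ⟨c, hc⟩ k L hL => hL.isP hg hc
  tfae_have 2 → 3 := fun h => ⟨0, fun L hL => IsSig.isSigPoly (IsSig.of_isP (h _ L hL) 0)⟩
  tfae_have 3 → 1 := by
    rintro ⟨k, h⟩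
    by_contra hcon
    exact hA g hg hcon k (h _ (langP_sig hg A k))
  tfae_have 1 → 4 := fun ⟨c, hc⟩ k L hL => hL.isSig hg hc
  tfae_have 4 → 5 := fun h => ⟨0, fun L hL => IsSig.isSigPoly (h _ L hL)⟩
  tfae_have 5 → 3 := fun ⟨k, h⟩ => ⟨k, fun L hL => h L (hL.mix hg)⟩
  tfae_finish

end Pool.Agent.TH93.QL
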