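import Pool.Agent.TH93.QL.Up
import Pool.Agent.H591R3.PHG.Sig

/-!
# One more quantifier
-/

set_option autoImplicit false

namespace Pool.Agent.TH93.QL

open Pool.Agent.H620R2.Gauge Pool.Agent.NPC Pool.Agent.H591R3.PHG
open Pool.Agent.TH93.GL Pool.Agent.TH93.CE
open Pool.Agent.H490R3.LH
open Pool.Agent.H622R2 (poly_pairBits)

theorem quantS_iff {g : ℕ → ℕ} {V V' : List Bool → List Bool} {K m : ℕ}
    (hV' : ∀ z, V' z = [true] ↔ Quant (g (EQAx.inner K z).length) V 1 (bot true K) z) :
    ∀ (j i : ℕ) (b : Bool) (z : List Bool), i + j = K → bot b j = bot true K →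
      (QuantS m (g (EQAx.inner i z).length) V j b z ↔ Quant m V' j b z) := by
  intro j
  induction j with
  | zero =>
    intro i b z hi hb
    have hi : i = K := by omega
    subst hi
    have h1 := hV' z
    have h2 : b = bot true i := hb
    rw [← h2] at h1
    cases b with
    | true => exact h1.symm
    | false => exact h1.symm
  | succ j ih =>
    intro i b z hi hb
    have e1 : ∀ w : List Bool, EQAx.inner (i + 1) (pairBits w z) = EQAx.inner i z := fun w => by
      simp only [EQAx.inner, EQAx.unpair2]
    have key : ∀ w : List Bool, (QuantS m (g (EQAx.inner i z).length) V j (!b) (pairBits w z) ↔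
        Quant m V' j (!b) (pairBits w z)) := by
      intro w
      have h1 := ih (i + 1) (!b) (pairBits w z) (by omega) hb
      rw [e1] at h1
      exact h1
    cases b with
    | true => exact exists_congr fun w => and_congr_right fun _ => key w
    | false => exact forall_congr' fun w => imp_congr_right fun _ => key w

theorem SigMix.isSig {g : ℕ → ℕ} (hg : NiceT (fun n => n) g) {c : ℕ}
    (hc : ∀ n, g n ≤ c * (Nat.log 2 n + 1)) {A : Oracle} {k : ℕ} {L : Set (List Bool)}
    (h : SigMix g A k L) : IsSig A k L := by
  obtain ⟨V, p, hV, hL⟩ := h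
  obtain ⟨V', hV', h'⟩ := quant_isP hV hg hc 1 k (bot true k)
  exact ⟨V', p, hV', fun x => (hL x).trans
    (quantS_iff (V' := V') (fun z => (h' z).symm) k 0 true x (by omega) rfl)⟩

theorem quantS_TT (V : List Bool → List Bool) (g : ℕ → ℕ) (K M : ℕ) :
    ∀ (j i : ℕ) (b : Bool) (z : List Bool), i + j = K → g (EQAx.inner i z).length ≤ M →
      (QuantS M (g (EQAx.inner i z).length)
        (fun u => V (pairBits (unpair u).1 (EQAx.TT (fun x => x) (fun x => g x.length) K
          (unpair u).2))) j b z ↔
        Quant (g (EQAx.inner i z).length) V (j + 1) b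
          (EQAx.TT (fun x => x) (fun x => g x.length) i z)) := by
  intro j
  induction j with
  | zero =>
    intro i b z hi hM
    have hi : i = K := by omega
    subst hi
    cases b with
    | true =>
      refine exists_congr fun w => and_congr_right fun _ => ?_
      simp only [EQAx.unpair1, EQAx.unpair2]
      exact Iff.rfl
    | false =>
      refine forall_congr' fun w => imp_congr_right fun _ => ?_
      simp only [EQAx.unpair1, EQAx.unpair2]
      exact Iff.rfl
  | succ j ih =>
    intro i b z hi hM
    have e1 : ∀ w, EQAx.inner (i + 1) (pairBits w z) = EQAx.inner i z := fun w => by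
      simp only [EQAx.inner, EQAx.unpair2]
    have e2 : ∀ w, EQAx.TT (fun x => x) (fun x => g x.length) (i + 1) (pairBits w z) =
        pairBits (EQAx.cut (g (EQAx.inner i z).length) w)
          (EQAx.TT (fun x => x) (fun x => g x.length) i z) := fun w => by
      simp only [EQAx.TT, EQAx.unpair1, EQAx.unpair2]
    have key : ∀ w b', (QuantS M (g (EQAx.inner i z).length)
        (fun u => V (pairBits (unpair u).1 (EQAx.TT (fun x => x) (fun x => g x.length) K
          (unpair u).2))) j b' (pairBits w z) ↔
        Quant (g (EQAx.inner i z).length) V (j + 1) b'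
          (pairBits (EQAx.cut (g (EQAx.inner i z).length) w)
            (EQAx.TT (fun x => x) (fun x => g x.length) i z))) := by
      intro w b'
      have h1 := ih (i + 1) b' (pairBits w z) (by omega) (by rw [e1]; exact hM)
      rw [e1, e2] at h1
      exact h1
    cases b with
    | true =>
      constructor
      · rintro ⟨w, hw, h⟩
        exact ⟨EQAx.cut _ w, EQAx.cut_le _ _, (key w false).1 h⟩
      · rintro ⟨w, hw, h⟩
        exact ⟨w, hw.trans hM, (key w false).2 (by rw [EQAx.cut_of_le hw]; exact h)⟩
    | false =>
      constructor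
      · intro h w hw
        have h1 := (key w true).1 (h w (hw.trans hM))
        rwa [EQAx.cut_of_le hw] at h1
      · intro h w hw
        exact (key w true).2 (h _ (EQAx.cut_le _ _))

theorem SigG.mix {g : ℕ → ℕ} (hg : NiceT (fun n => n) g) {A : Oracle} {k : ℕ}
    {L : Set (List Bool)} (h : SigG g A (k + 1) L) : SigMix g A k L := by
  obtain ⟨V, hV, hL⟩ := h
  obtain ⟨S, hS⟩ := hg.poly (fun n => le_rfl)
  refine ⟨fun u => V (pairBits (unpair u).1 (EQAx.TT (fun x => x) (fun x => g x.length) k
    (unpair u).2)), S, hV.precomp (poly_pairBits EQAx.poly_u1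
      ((EQAx.poly_TT Poly.id (poly_of_nice hg) k).comp EQAx.poly_u2)), fun x => ?_⟩
  exact (hL x).trans (quantS_TT V g k (S.eval x.length) k 0 true x (by omega)
    (hS x.length)).symm

end Pool.Agent.TH93.QL
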