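import Pool.Agent.TH93.QL.Lang
import Pool.Agent.TH93.CE.Law

/-!
# Quantifiers over few strings do not help
-/

set_option autoImplicit false

namespace Pool.Agent.TH93.QL

open Pool.Agent.H620R2.Gauge Pool.Agent.NPC Pool.Agent.H591R3.PHG
open Pool.Agent.TH93.GL Pool.Agent.TH93.CE
open Pool.Agent.H490R3.LH
open Pool.Agent.H622R2 (poly_pairBits)
open Pool.Agent.TH678.ETH

theorem ex_poly {A : Oracle} {R : List Bool → Prop} (hR : IsP A {y | R y}) {μ : List Bool → ℕ}
    (hμ : Poly μ) (T : Polynomial ℕ) (hT : ∀ y : List Bool, 2 ^ (μ y + 1) ≤ T.eval y.length) :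
    IsP A {y | ∃ w : List Bool, w.length ≤ μ y ∧ R (pairBits w y)} := by
  obtain ⟨V, hV, hVR⟩ := hR
  set W : (ℕ × List Bool) × List Bool → List Bool := fun p => pairBits (ub p.1.1) p.1.2 with hW
  set H : List Bool × List Bool → List Bool := fun y =>
    [y.2.zipIdx.any (fun p => p.1 && decide ((ub p.2).length ≤ μ y.1))] with hH
  have pW : Poly W := by
    rw [hW]
    exact poly_pairBits (poly_ub (Poly.fst (Poly.fst Poly.id))) (Poly.snd (Poly.fst Poly.id))
  have pH : Poly H := by
    rw [hH]
    refine Poly.cons ?_ (NPC.Poly.const [])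
    refine Poly.any (l := fun y : List Bool × List Bool => y.2.zipIdx)
      (p := fun (y : List Bool × List Bool) (p : Bool × ℕ) => p.1 &&
        decide ((ub p.2).length ≤ μ y.1))
      (Poly.zipIdx (Poly.snd Poly.id)) ?_
    exact Poly.and (Poly.fst (Poly.snd Poly.id)) (Poly.decide_le
      (Poly.length (poly_ub (Poly.snd (Poly.snd Poly.id))))
      (hμ.comp (Poly.fst (Poly.fst Poly.id))))
  have hQ : Poly (fun _ : ℕ × List Bool => ([] : List (List Bool))) := NPC.Poly.const _
  have hVV := IsFP.votes hV T hQ pW pH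
  refine ⟨_, hVV, fun y => ?_⟩
  have key : H (y, (List.range (T.eval y.length)).map
      (fun i => decide (V (W ((i, y), ([] : List (List Bool)).map A)) = [true]))) = [true] ↔
      ∃ i < T.eval y.length, V (pairBits (ub i) y) = [true] ∧ (ub i).length ≤ μ y := by
    rw [hH, hW]
    simp only [List.cons.injEq, and_true, List.any_eq_true, Bool.and_eq_true, decide_eq_true_eq]
    constructor
    · rintro ⟨⟨b, i⟩, hbi, hb, hi⟩
      rw [List.mem_zipIdx_iff_getElem?] at hbi
      simp only [List.getElem?_map] at hbi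
      dsimp only at hb hi
      subst hb
      rcases Nat.lt_or_ge i (T.eval y.length) with h | h
      · rw [List.getElem?_range h] at hbi
        simp only [Option.map_some, Option.some.injEq, decide_eq_true_eq] at hbi
        exact ⟨i, h, hbi, hi⟩
      · rw [List.getElem?_eq_none (by simpa using h)] at hbi
        simp at hbi
    · rintro ⟨i, h, hv, hi⟩
      refine ⟨(true, i), ?_, rfl, hi⟩
      rw [List.mem_zipIdx_iff_getElem?]
      simp only [List.getElem?_map]
      rw [List.getElem?_range h]
      simp [hv]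
  refine Iff.trans ?_ key.symm
  constructor
  · rintro ⟨w, hw, hwV⟩
    obtain ⟨i, hi, hiu⟩ := exists_ub w
    refine ⟨i, ?_, ?_, ?_⟩
    · exact lt_of_lt_of_le hi ((Nat.pow_le_pow_right (by norm_num) (by omega)).trans (hT y))
    · rw [hiu]
      exact (hVR _).1 hwV
    · rw [hiu]
      exact hw
  · rintro ⟨i, _, hv, hi⟩
    exact ⟨ub i, hi, (hVR _).2 hv⟩

theorem inner_len : ∀ (i : ℕ) (z : List Bool), (EQAx.inner i z).length ≤ z.length := by
  intro i
  induction i with
  | zero => intro z; exact le_rfl
  | succ i ih =>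
    intro z
    have h1 := LangSig.length_unpair z
    have h2 := ih (unpair z).2
    show (EQAx.inner i (unpair z).2).length ≤ _
    omega

theorem quant_isP {A : Oracle} {V : List Bool → List Bool} (hV : IsFP A V) {g : ℕ → ℕ}
    (hg : NiceT (fun n => n) g) {c : ℕ} (hc : ∀ n, g n ≤ c * (Nat.log 2 n + 1)) :
    ∀ (j i : ℕ) (b : Bool), IsP A {z | Quant (g (EQAx.inner i z).length) V j b z} := by
  intro j
  induction j with
  | zero => intro i b; exact ⟨V, hV, fun z => by cases b <;> exact Iff.rfl⟩
  | succ j ih =>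
    intro i b
    have hμ : Poly (fun z => g (EQAx.inner i z).length) :=
      (poly_of_nice hg).comp (EQAx.poly_inner i)
    have hT : ∀ y : List Bool, 2 ^ (g (EQAx.inner i y).length + 1) ≤
        (2 * (2 * Polynomial.X + 2) ^ c : Polynomial ℕ).eval y.length := by
      intro y
      have h1 := pow_bound hc (EQAx.inner i y).length
      have h2 : ((2 * Polynomial.X + 2) ^ c : Polynomial ℕ).eval (EQAx.inner i y).length ≤
          ((2 * Polynomial.X + 2) ^ c : Polynomial ℕ).eval y.length := eval_mono _ (inner_len i y)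
      rw [Polynomial.eval_mul, Polynomial.eval_ofNat, pow_succ]
      omega
    have e1 : ∀ w z : List Bool, EQAx.inner (i + 1) (pairBits w z) = EQAx.inner i z := fun w z => by
      simp only [EQAx.inner, EQAx.unpair2]
    cases b with
    | true =>
      have h1 := ex_poly (R := fun z => Quant (g (EQAx.inner (i + 1) z).length) V j false z)
        (ih (i + 1) false) hμ _ hT
      simp only [e1] at h1
      exact h1
    | false =>
      have h1 := ex_poly (R := fun z => ¬ Quant (g (EQAx.inner (i + 1) z).length) V j true z)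
        (ih (i + 1) true).compl hμ _ hT
      simp only [e1] at h1
      have h2 := h1.compl
      refine (congrArg (IsP A) ?_).mp h2
      ext z
      simp only [Set.mem_compl_iff, Set.mem_setOf_eq, not_exists, not_and, not_not]
      exact Iff.rfl

theorem SigG.isP {g : ℕ → ℕ} (hg : NiceT (fun n => n) g) {c : ℕ}
    (hc : ∀ n, g n ≤ c * (Nat.log 2 n + 1)) {A : Oracle} {k : ℕ} {L : Set (List Bool)}
    (h : SigG g A k L) : IsP A L := by
  obtain ⟨V, hV, hL⟩ := h
  obtain ⟨V', hV', h'⟩ := quant_isP hV hg hc k 0 true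
  exact ⟨V', hV', fun x => (hL x).trans (h' x)⟩

end Pool.Agent.TH93.QL
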